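import Pool.Agent.H.MP_be01ff_an.I

namespace Pool.Agent.Results.MP_be01ff_an.Exists

open Set

theorem result (a α A B : ℝ) (ha : 0 < a) (hα : 0 < α) (hAB : A < B) : ∃ u : ℝ × ℝ → ℝ,
    ContDiff ℝ 2 u ∧ (∀ t, 0 ≤ t → u (t, A) = 0 ∧ u (t, B) = 0) ∧
    (∀ t, 0 ≤ t → ∀ x ∈ Icc A B,
      deriv (fun s => deriv (fun r => u (r, x)) s) t - deriv (fun y => deriv (fun z => u (t, z)) y) x
        + a * |deriv (fun r => u (r, x)) t| ^ α * deriv (fun r => u (r, x)) t = 0) ∧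
    ∃ c C : ℝ, 0 < c ∧ c ≤ C ∧ ∀ t, 0 ≤ t →
      c * (1 + t) ^ (-2 / α) ≤
        ∫ x in A..B, (deriv (fun r => u (r, x)) t ^ 2 + deriv (fun z => u (t, z)) x ^ 2) ∧
      ∫ x in A..B, (deriv (fun r => u (r, x)) t ^ 2 + deriv (fun z => u (t, z)) x ^ 2) ≤
        C * (1 + t) ^ (-2 / α) :=
  Pool.Agent.H.MP_be01ff_an.exist ha hα hAB

end Pool.Agent.Results.MP_be01ff_an.Exists
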